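import Pool.Agent.N746.UR.Basic

/-!
# The Newton map, uniformly
-/

set_option autoImplicit false

namespace Pool.Agent.N746.UR

open NumberField IsDedekindDomain Height Real Polynomial Pool.Agent.N757.RD Pool.Agent.N757.TL
open Pool.Agent.N746.RK

/-- **The Newton map.** -/
theorem mp_newton {m : ℕ} {k : ℤ} (hk : k ≠ 0) :
    Mp ((m : ℝ) + 1) (PB (m + 2) k) (hB (m + 2)) (rB (m + 2) k) (PR (m + 2) k) (hR (m + 2))
      (rR (m + 2) k) := by
  set F : ℤ[X] := C ((m : ℤ) + 1) * X ^ (m + 2) + C k with hF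
  set G₀ : ℤ[X] := C ((m : ℤ) + 2) * X ^ (m + 1) with hG₀
  have dF : F.natDegree ≤ m + 2 := by
    rw [hF]
    refine (natDegree_add_le _ _).trans (max_le (natDegree_C_mul_X_pow_le _ _) ?_)
    rw [natDegree_C]; omega
  have cF : F.coeff (m + 2) ≠ 0 := by
    rw [hF, coeff_add, coeff_C_mul_X_pow, if_pos rfl, coeff_C_of_ne_zero (by omega), add_zero]
    omega
  have hBez : (C ((m : ℤ) + 2)) * F + (-(C ((m : ℤ) + 1) * X)) * G₀ = C (((m : ℤ) + 2) * k) := by
    rw [hF, hG₀, C_mul]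
    ring
  have hc₀ : ((m : ℤ) + 2) * k ≠ 0 := mul_ne_zero (by omega) hk
  obtain ⟨C1, hC1, hge⟩ := D_ratio_ge dF (by omega) cF hc₀ hBez
  -- the double root
  obtain ⟨G, hG1, hG2⟩ := dneg (C k) (X ^ (m + 2)) (m + 2) (by rw [natDegree_C]; omega)
    (natDegree_X_pow_le _) (m + 2) (by omega)
  simp only [show m + 2 - 1 = m + 1 by omega, show m + 2 - 2 = m by omega] at hG1 hG2
  have hn0 : ((m : ℤ) + 2) ≠ 0 := by omega
  obtain ⟨a1, ha1⟩ : ∃ a, a = Real.log |(((m : ℤ) + 2 : ℤ) : ℝ)| := ⟨_, rfl⟩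
  obtain ⟨a2, ha2⟩ : ∃ a, a = Real.log |(k : ℝ)| := ⟨_, rfl⟩
  obtain ⟨a3, ha3⟩ : ∃ a, a = Real.log (nrm G) := ⟨_, rfl⟩
  have l1 : 0 ≤ a1 := by rw [ha1]; exact log_abs_nonneg hn0
  have l2 : 0 ≤ a2 := by rw [ha2]; exact log_abs_nonneg hk
  have l3 : 0 ≤ a3 := by rw [ha3]; exact log_nrm_nonneg G
  refine ⟨((m : ℝ) + 1) * C1 + C1 + a1 + a2 + a3, by positivity, ?_⟩
  rintro K _ _ x ⟨hx0, hxk⟩
  have hd := dg_pos (K := K)
  obtain ⟨hbad, hWb⟩ := W_bad (K := K) hn0
  rw [← ha1] at hWb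
  have hDk := D_intCast_le (K := K) k hk
  rw [← ha2] at hDk
  have hC1d : 0 ≤ C1 * dg K := by positivity
  have hm1 : 0 ≤ ((m : ℝ) + 1) * (C1 * dg K) := by positivity
  have hl1 : 0 ≤ a1 * dg K := mul_nonneg l1 hd.le
  have hl2 : 0 ≤ a2 * dg K := mul_nonneg l2 hd.le
  have hl3 : 0 ≤ a3 * dg K := mul_nonneg l3 hd.le
  simp only [hB, hR, rB, rR, PR]
  have hFx : aeval x F = ((m : K) + 1) * x ^ (m + 2) + ((k : ℤ) : K) := by
    rw [hF]; simp
  have hGx : aeval x G₀ = ((m : K) + 2) * x ^ (m + 1) := by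
    rw [hG₀]; simp [map_ofNat]
  have hnK : ((m : K) + 2) ≠ 0 := by exact_mod_cast hn0
  have hGx0 : aeval x G₀ ≠ 0 := by
    rw [hGx]; exact mul_ne_zero hnK (pow_ne_zero _ hx0)
  have hgex := hge K x hGx0
  push_cast at hgex
  set y : K := aeval x F / aeval x G₀ with hy
  by_cases hyk : y ^ (m + 2) = ((k : ℤ) : K)
  · left
    have h1 := root_D_le (by omega) hyk
    push_cast
    linarith
  right
  have hid : y ^ (m + 2) - ((k : ℤ) : K) =
      (x ^ (m + 2) - ((k : ℤ) : K)) ^ 2 * aeval x G / (aeval x G₀) ^ (m + 2) := by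
    have h1 := congrArg (aeval x) hG1
    simp only [eq_intCast, map_intCast, map_sub, map_mul, map_pow, map_add, aeval_X, map_natCast,
      map_one] at h1
    rw [eq_div_iff (pow_ne_zero _ hGx0), hy, sub_mul, div_pow, div_mul_cancel₀ _ (pow_ne_zero _ hGx0)]
    have e1 : (aeval x F) ^ (m + 2) =
        (((k : ℤ) : K) + (((m + 2 : ℕ) : K) - 1) * x ^ (m + 2)) ^ (m + 2) := by
      rw [hFx]; push_cast; ring
    have e2 : ((k : ℤ) : K) * (aeval x G₀) ^ (m + 2) =
        ((m + 2 : ℕ) : K) ^ (m + 2) * ((k : ℤ) : K) * (x ^ (m + 2)) ^ (m + 1) := by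
      rw [hGx, mul_pow, ← pow_mul, ← pow_mul, mul_comm (m + 1) (m + 2)]; push_cast; ring
    rw [e1, e2, h1]
    ring
  have hGG : aeval x G ≠ 0 := by
    intro h0
    rw [h0, mul_zero, zero_div] at hid
    exact hyk (sub_eq_zero.1 hid)
  refine ⟨y, hyk, ?_, ?_⟩
  · push_cast
    have h1 : ((m : ℝ) + 1) * (((m : ℝ) + 2) * D x) ≤ ((m : ℝ) + 1) * (D y + C1 * dg K) :=
      mul_le_mul_of_nonneg_left hgex (by positivity)
    have : (m : ℝ) + 2 - 1 = m + 1 := by ring
    rw [this]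
    linarith
  · have hsub : IR (m + 2) ((k : ℤ) : K) y ⊆ JR (m + 2) ((k : ℤ) : K) x ∪ (lows (aeval x G) ∪
        {p : HeightOneSpectrum (𝓞 K) | FinitePlace.mk p (((m : ℤ) + 2 : ℤ) : K) ≠ 1}) := by
      intro p hp
      by_cases hpn : FinitePlace.mk p (((m : ℤ) + 2 : ℤ) : K) = 1
      swap
      · exact Or.inr (Or.inr hpn)
      by_cases hpJ : p ∈ JR (m + 2) ((k : ℤ) : K) x
      · exact Or.inl hpJ
      right; left
      simp only [JR, Set.mem_ofPred_eq, not_or, not_lt, not_not] at hpJ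
      obtain ⟨hx1, hxk1⟩ := hpJ
      have hmax : max 1 (FinitePlace.mk p x) = 1 := max_eq_left hx1.le
      have hint : ∀ P : ℤ[X], FinitePlace.mk p (aeval x P) ≤ 1 := by
        intro P
        have := fin_aeval_le p x P
        rwa [hmax, one_pow] at this
      have hG01 : FinitePlace.mk p (aeval x G₀) = 1 := by
        rw [hGx, map_mul, map_pow, hx1, one_pow, mul_one]
        have : (((m : ℤ) + 2 : ℤ) : K) = (m : K) + 2 := by push_cast; ring
        rwa [this] at hpn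
      rcases hp with h3 | h3
      · rw [hy, map_div₀, hG01, div_one] at h3
        have := hint F
        linarith
      · rw [hid, map_div₀, map_pow, hG01, one_pow, div_one, map_mul, map_pow] at h3
        change FinitePlace.mk p (aeval x G) < 1
        by_contra hcon
        push Not at hcon
        have h4 : 1 ≤ FinitePlace.mk p (x ^ (m + 2) - ((k : ℤ) : K)) ^ 2 := one_le_pow₀ hxk1
        have := one_le_mul_of_one_le_of_one_le h4 hcon
        linarith
    have f1 := finite_JR hx0 hxk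
    have f2 := finite_lows hGG
    have h3 := W_mono hsub (f1.union (f2.union hbad))
    have h4 := W_union f1 (f2.union hbad)
    have h5 := W_union f2 hbad
    have h6 := W_lows_le hGG
    have h7 := D_aeval_le x G
    rw [← ha3] at h7
    have h8 : (G.natDegree : ℝ) * D x ≤ ((m : ℝ) * ((m : ℝ) + 2)) * D x := by
      refine mul_le_mul_of_nonneg_right ?_ (D_nonneg x)
      exact_mod_cast hG2
    push_cast
    have e3 : ((m : ℝ) + 1 - 1) * (((m : ℝ) + 2) * D x) = ((m : ℝ) * ((m : ℝ) + 2)) * D x := by ring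
    rw [e3]
    linarith

end Pool.Agent.N746.UR
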