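import Pool.Agent.N757.TL.Tr
import Pool.Agent.N746.RK.Newton

/-!
# Transfer of height inequalities, uniformly in the number field
-/

set_option autoImplicit false

namespace Pool.Agent.N746.UR

open NumberField IsDedekindDomain Height Real Polynomial Pool.Agent.N757.RD Pool.Agent.N757.TL

/-- a function of the elements of number fields -/
abbrev Fam : Type 1 := (K : Type) → [Field K] → [NumberField K] → K → ℝ

/-- a class of elements of number fields -/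
abbrev Cl : Type 1 := (K : Type) → [Field K] → [NumberField K] → K → Prop

/-- transfer of an inequality `h ≤ (1 + ε) (r + Δ) + C d`, uniformly in the field and in `Δ ≥ 0` -/
def Tr (P : Cl) (h r : Fam) (Q : Cl) (h' r' : Fam) : Prop :=
  ∀ ε : ℝ, 0 < ε → ∃ ε' : ℝ, 0 < ε' ∧ ∀ C' : ℝ, ∃ C : ℝ,
    ∀ (K : Type) [Field K] [NumberField K] (Δ : ℝ), 0 ≤ Δ →
      (∀ y : K, Q K y → h' K y ≤ (1 + ε') * (r' K y + Δ) + C' * dg K) →
      ∀ x : K, P K x → h K x ≤ (1 + ε) * (r K x + Δ) + C * dg K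

/-- a map which transfers the inequality -/
def Mp (N : ℝ) (P : Cl) (h r : Fam) (Q : Cl) (h' r' : Fam) : Prop :=
  ∃ C : ℝ, 0 ≤ C ∧ ∀ (K : Type) [Field K] [NumberField K] (x : K), P K x →
    h K x ≤ C * dg K ∨ ∃ y : K, Q K y ∧ N * h K x ≤ h' K y + C * dg K ∧
      r' K y ≤ r K x + (N - 1) * h K x + C * dg K

theorem Mp.tr {N : ℝ} {P : Cl} {h r : Fam} {Q : Cl} {h' r' : Fam} (H : Mp N P h r Q h' r')
    (hN : 1 ≤ N) (hh : ∀ (K : Type) [Field K] [NumberField K] (x : K), 0 ≤ h K x)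
    (hr : ∀ (K : Type) [Field K] [NumberField K] (x : K), 0 ≤ r K x) : Tr P h r Q h' r' := by
  obtain ⟨C0, hC0, H⟩ := H
  intro ε hε
  refine ⟨ε / ((1 + ε) * N), by positivity, fun C' => ?_⟩
  refine ⟨(1 + ε) * ((3 + ε / ((1 + ε) * N)) * C0 + max C' 0), ?_⟩
  intro K _ _ Δ hΔ hyp x hx
  have hd := dg_pos (K := K)
  have h1 : ε / ((1 + ε) * N) * ((1 + ε) * N) ≤ ε := by
    have : (1 + ε) * N ≠ 0 := by positivity
    rw [div_mul_cancel₀ _ this]
  have h2 := Pool.Agent.N757.TL.tr (N := N) (C := C0 * dg K) (C' := max C' 0 * dg K) (ε := ε)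
    (ε' := ε / ((1 + ε) * N)) (by positivity) (by positivity) hε (by positivity) h1 (hh K x)
    (add_nonneg (hr K x) hΔ) ?_
  · refine h2.trans (le_of_eq ?_)
    ring
  · rcases H K x hx with h3 | ⟨y, hy, h3, h4⟩
    · exact Or.inl h3
    · refine Or.inr ⟨h' K y, r' K y + Δ, h3, by linarith, (hyp y hy).trans ?_⟩
      have := mul_le_mul_of_nonneg_right (le_max_left C' 0) hd.le
      linarith

theorem Tr.trans {P₁ P₂ P₃ : Cl} {h₁ r₁ h₂ r₂ h₃ r₃ : Fam} (H₁ : Tr P₁ h₁ r₁ P₂ h₂ r₂)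
    (H₂ : Tr P₂ h₂ r₂ P₃ h₃ r₃) : Tr P₁ h₁ r₁ P₃ h₃ r₃ := by
  intro ε hε
  obtain ⟨ε₁, hε₁, h1⟩ := H₁ ε hε
  obtain ⟨ε₂, hε₂, h2⟩ := H₂ ε₁ hε₁
  refine ⟨ε₂, hε₂, fun C₃ => ?_⟩
  obtain ⟨C₂, hC₂⟩ := h2 C₃
  obtain ⟨C₁, hC₁⟩ := h1 C₂
  exact ⟨C₁, fun K _ _ Δ hΔ hyp => hC₁ K Δ hΔ (hC₂ K Δ hΔ hyp)⟩

section

variable {K : Type} [Field K] [NumberField K]

/-- the primes at which an integer is not a unit -/
theorem W_bad {n : ℤ} (hn : n ≠ 0) :
    {p : HeightOneSpectrum (𝓞 K) | FinitePlace.mk p ((n : ℤ) : K) ≠ 1}.Finite ∧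
    W {p : HeightOneSpectrum (𝓞 K) | FinitePlace.mk p ((n : ℤ) : K) ≠ 1} ≤
      Real.log |(n : ℝ)| * dg K := by
  have hnK : ((n : ℤ) : K) ≠ 0 := by exact_mod_cast hn
  have h1 : {p : HeightOneSpectrum (𝓞 K) | FinitePlace.mk p ((n : ℤ) : K) ≠ 1} ⊆
      lows ((n : ℤ) : K) := by
    intro p hp
    exact lt_of_le_of_ne (fin_intCast_le p n) hp
  obtain ⟨h2, h3⟩ := W_le_of_subset_lows hnK h1
  have h4 := D_intCast_le (K := K) n hn
  exact ⟨h2, by linarith⟩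

theorem log_abs_nonneg {n : ℤ} (hn : n ≠ 0) : 0 ≤ Real.log |(n : ℝ)| := by
  refine Real.log_nonneg ?_
  exact_mod_cast Int.one_le_abs hn

end

/-- the points `x ≠ 0, 1` -/
def PA : Cl := fun _ _ _ x => x ≠ 0 ∧ x ≠ 1

/-- the height -/
noncomputable def hA : Fam := fun _ _ _ x => D x

/-- the radical for `0`, `1`, `∞` -/
noncomputable def rA : Fam := fun _ _ _ x => R x

/-- the points which are not roots -/
def PR (n : ℕ) (k : ℤ) : Cl := fun K _ _ x => x ^ n ≠ ((k : ℤ) : K)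

/-- `n - 1` times the height -/
noncomputable def hR (n : ℕ) : Fam := fun _ _ _ x => ((n : ℝ) - 1) * D x

/-- the radical for `∞` and the roots -/
noncomputable def rR (n : ℕ) (k : ℤ) : Fam := fun K _ _ x => W (RK.IR n ((k : ℤ) : K) x)

/-- the points which are not roots and not `0` -/
def PB (n : ℕ) (k : ℤ) : Cl := fun K _ _ x => x ≠ 0 ∧ x ^ n ≠ ((k : ℤ) : K)

/-- `n` times the height -/
noncomputable def hB (n : ℕ) : Fam := fun _ _ _ x => (n : ℝ) * D x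

/-- the radical for `0`, `∞` and the roots -/
noncomputable def rB (n : ℕ) (k : ℤ) : Fam := fun K _ _ x => W (RK.JR n ((k : ℤ) : K) x)

end Pool.Agent.N746.UR
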