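import Pool.Agent.N746.UR.Main
import Pool.Agent.N757.TL.Ht
import Pool.Agent.N757.RD.Point

/-!
# Multiples of a polynomial
-/

set_option autoImplicit false

namespace Pool.Agent.N746.UR

open NumberField IsDedekindDomain Height Real Polynomial Pool.Agent.N757.RD Pool.Agent.N757.TL
open Pool.Agent.N746.RK

section

variable {K : Type} [Field K] [NumberField K]

/-- the primes at which `x` meets `∞` or a zero of `P` -/
def JP (P : ℤ[X]) (x : K) : Set (HeightOneSpectrum (𝓞 K)) :=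
  {v | 1 < FinitePlace.mk v x ∨ FinitePlace.mk v (aeval x P) < 1}

theorem finite_JP {P : ℤ[X]} {x : K} (h : aeval x P ≠ 0) : (JP P x).Finite :=
  (finite_gt x).union (finite_lows h)

end

/-- the points which are not zeros of `P` -/
def PP (P : ℤ[X]) : Cl := fun _ _ _ x => aeval x P ≠ 0

/-- `deg P - 1` times the height -/
noncomputable def hP (P : ℤ[X]) : Fam := fun _ _ _ x => ((P.natDegree : ℝ) - 1) * D x

/-- the radical for `∞` and the zeros of `P` -/
noncomputable def rP (P : ℤ[X]) : Fam := fun _ _ _ x => W (JP P x)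

/-- a divisor of `P` -/
theorem mp_dvd {Q R : ℤ[X]} (hQ : 2 ≤ Q.natDegree) (hR0 : R ≠ 0) :
    Mp (((Q.natDegree : ℝ) + R.natDegree - 1) / ((Q.natDegree : ℝ) - 1)) (PP Q) (hP Q) (rP Q)
      (PP (Q * R)) (hP (Q * R)) (rP (Q * R)) := by
  have hQ0 : Q ≠ 0 := by
    rintro rfl
    simp at hQ
  obtain ⟨r, hr⟩ : ∃ r, r = R.natDegree := ⟨_, rfl⟩
  obtain ⟨q, hq⟩ : ∃ q, q = Q.natDegree := ⟨_, rfl⟩
  have hdeg : (Q * R).natDegree = q + r := by rw [natDegree_mul hQ0 hR0, hq, hr]
  have hq2 : (2 : ℝ) ≤ q := by rw [hq]; exact_mod_cast hQ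
  have hr0 : (0 : ℝ) ≤ r := Nat.cast_nonneg _
  have hq1 : (0 : ℝ) < (q : ℝ) - 1 := by linarith
  -- the zeros of `R`
  obtain ⟨C₂, hC₂, h2⟩ : ∃ C₂ : ℝ, 0 ≤ C₂ ∧ ∀ (K : Type) [Field K] [NumberField K] (x : K),
      aeval x R = 0 → D x ≤ C₂ * dg K := by
    rcases Nat.eq_zero_or_pos R.natDegree with h0 | h0
    · refine ⟨0, le_rfl, fun K _ _ x hx => ?_⟩
      exfalso
      rw [eq_C_of_natDegree_eq_zero h0] at hx hR0
      rw [aeval_C] at hx
      have h3 : (R.coeff 0 : ℤ) ≠ 0 := fun h => hR0 (by rw [h, C_0])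
      apply h3
      have : ((R.coeff 0 : ℤ) : K) = 0 := hx
      exact_mod_cast this
    · obtain ⟨C₀, hC₀, h⟩ := D_ratio_ge (F := R) (G := 1) (A := 0) (B := 1) (c := 1)
        (N := R.natDegree) le_rfl h0 (by simpa using hR0) one_ne_zero (by simp)
      refine ⟨C₀, hC₀, fun K _ _ x hx => ?_⟩
      have h3 := h K x (by simp)
      rw [hx, zero_div] at h3
      have e : D (0 : K) = 0 := logHeight₁_zero
      rw [e, zero_add] at h3
      have h4 : (1 : ℝ) ≤ R.natDegree := by exact_mod_cast h0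
      have h5 := D_nonneg x
      nlinarith
  have hl := log_nrm_nonneg R
  unfold Mp
  simp only [hP, rP, PP]
  rw [hdeg, ← hq, ← hr]
  refine ⟨Real.log (nrm R) + ((q : ℝ) - 1) * C₂, by positivity, ?_⟩
  intro K _ _ x hx
  have hd := dg_pos (K := K)
  have eN : ((q : ℝ) + r - 1) / ((q : ℝ) - 1) * (((q : ℝ) - 1) * D x) = ((q : ℝ) + r - 1) * D x := by
    field_simp
  have eN1 : (((q : ℝ) + r - 1) / ((q : ℝ) - 1) - 1) * (((q : ℝ) - 1) * D x) = r * D x := by
    field_simp
    ring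
  rw [eN, eN1]
  have g6 : 0 ≤ Real.log (nrm R) * dg K := by positivity
  have g5 : 0 ≤ ((q : ℝ) - 1) * (C₂ * dg K) := by positivity
  by_cases hRx : aeval x R = 0
  · left
    have := mul_le_mul_of_nonneg_left (h2 K x hRx) hq1.le
    linarith
  right
  refine ⟨x, by rw [map_mul]; exact mul_ne_zero hx hRx, ?_, ?_⟩
  · push_cast
    linarith
  · have hsub : JP (Q * R) x ⊆ JP Q x ∪ lows (aeval x R) := by
      intro p hp
      rcases hp with h3 | h3
      · exact Or.inl (Or.inl h3)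
      · by_cases h4 : FinitePlace.mk p (aeval x Q) < 1
        · exact Or.inl (Or.inr h4)
        · right
          change FinitePlace.mk p (aeval x R) < 1
          by_contra hcon
          rw [map_mul, map_mul] at h3
          have := one_le_mul_of_one_le_of_one_le (not_lt.1 h4) (not_lt.1 hcon)
          linarith
    have f1 := finite_JP hx
    have f2 := finite_lows hRx
    have g1 := W_mono hsub (f1.union f2)
    have g2 := W_union f1 f2
    have g3 := W_lows_le hRx
    have g4 := D_aeval_le x R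
    rw [← hr] at g4
    linarith

theorem tr_dvd {Q P : ℤ[X]} (hQ : 2 ≤ Q.natDegree) (hP0 : P ≠ 0) (h : Q ∣ P) :
    Tr (PP Q) (hP Q) (rP Q) (PP P) (hP P) (rP P) := by
  obtain ⟨R, rfl⟩ := h
  have hq2 : (2 : ℝ) ≤ Q.natDegree := by exact_mod_cast hQ
  refine (mp_dvd hQ (right_ne_zero_of_mul hP0)).tr ?_ ?_ ?_
  · rw [le_div_iff₀ (by linarith)]
    have : (0 : ℝ) ≤ R.natDegree := Nat.cast_nonneg _
    linarith
  · exact fun K _ _ x => mul_nonneg (by linarith) (D_nonneg x)
  · exact fun K _ _ x => W_nonneg _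

/-- the polynomial `X ^ n - k` -/
theorem tr_root_poly {n : ℕ} (hn : 2 ≤ n) (k : ℤ) :
    Tr (PR n k) (hR n) (rR n k) (PP (X ^ n - C k)) (hP (X ^ n - C k)) (rP (X ^ n - C k)) ∧
    Tr (PP (X ^ n - C k)) (hP (X ^ n - C k)) (rP (X ^ n - C k)) (PR n k) (hR n) (rR n k) := by
  have hdeg : (X ^ n - C k : ℤ[X]).natDegree = n := natDegree_X_pow_sub_C
  have e0 : ∀ (K : Type) [Field K] [NumberField K] (x : K),
      aeval x (X ^ n - C k : ℤ[X]) = x ^ n - ((k : ℤ) : K) := by
    intro K _ _ x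
    simp
  have e1 : (PP (X ^ n - C k) : Cl) = PR n k := by
    funext K _ _ x
    simp only [PP, PR, e0, sub_ne_zero]
  have e2 : (hP (X ^ n - C k) : Fam) = hR n := by
    funext K _ _ x
    simp only [hP, hR, hdeg]
  have e3 : (rP (X ^ n - C k) : Fam) = rR n k := by
    funext K _ _ x
    simp only [rP, rR, JP, IR, e0]
  rw [e1, e2, e3]
  have : Tr (PR n k) (hR n) (rR n k) (PR n k) (hR n) (rR n k) := by
    intro ε hε
    exact ⟨ε, hε, fun C' => ⟨C', fun K _ _ Δ _ h x hx => h x hx⟩⟩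
  exact ⟨this, this⟩

end Pool.Agent.N746.UR
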