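import Pool.Agent.N746.UR.Newton
import Pool.Agent.N746.UR.Pos
import Pool.Agent.N746.UR.Neg

/-!
# The roots of an integer and the uniform abc conjecture
-/

set_option autoImplicit false

namespace Pool.Agent.N746.UR

open NumberField IsDedekindDomain Height Real Polynomial Pool.Agent.N757.RD Pool.Agent.N757.TL
open Pool.Agent.N746.RK

/-- from abc to `∞` and the `n`-th roots of `k` -/
theorem mp_abc {n : ℕ} (hn : 2 ≤ n) {k : ℤ} (hk : k ≠ 0) :
    Mp ((n : ℝ) / ((n : ℝ) - 1)) (PR n k) (hR n) (rR n k) PA hA rA := by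
  obtain ⟨a1, ha1⟩ : ∃ a, a = Real.log |(k : ℝ)| := ⟨_, rfl⟩
  have l1 : 0 ≤ a1 := by rw [ha1]; exact log_abs_nonneg hk
  have hn0 : (2 : ℝ) ≤ n := by exact_mod_cast hn
  have hn1 : (0 : ℝ) < (n : ℝ) - 1 := by linarith
  refine ⟨a1 + a1, by positivity, ?_⟩
  intro K _ _ x hx
  have hd := dg_pos (K := K)
  obtain ⟨hfc, hWc⟩ := W_bad (K := K) hk
  have hDc := D_intCast_le (K := K) k hk
  rw [← ha1] at hWc hDc
  have hl1 : 0 ≤ a1 * dg K := mul_nonneg l1 hd.le
  simp only [hR, rR, hA, rA, PA]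
  change x ^ n ≠ ((k : ℤ) : K) at hx
  obtain ⟨c, hc'⟩ : ∃ c : K, c = ((k : ℤ) : K) := ⟨_, rfl⟩
  have hc : c ≠ 0 := by rw [hc']; exact_mod_cast hk
  rw [← hc'] at hx hfc hWc hDc ⊢
  by_cases hx0 : x = 0
  · left
    rw [hx0]
    have : D (0 : K) = 0 := logHeight₁_zero
    rw [this, mul_zero]; positivity
  right
  have hxn : x ^ n ≠ 0 := pow_ne_zero n hx0
  have e1 : 1 - c / x ^ n = (x ^ n - c) / x ^ n := by field_simp
  have hxc : x ^ n - c ≠ 0 := sub_ne_zero.2 hx
  have eN : (n : ℝ) / ((n : ℝ) - 1) * (((n : ℝ) - 1) * D x) = n * D x := by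
    field_simp
  have eN1 : ((n : ℝ) / ((n : ℝ) - 1) - 1) * (((n : ℝ) - 1) * D x) = D x := by
    field_simp
    ring
  rw [eN, eN1]
  refine ⟨c / x ^ n, ⟨div_ne_zero hc hxn, ?_⟩, ?_, ?_⟩
  · intro h1
    rw [h1, sub_self] at e1
    exact div_ne_zero hxc hxn e1.symm
  · have h1 : D (x ^ n) ≤ D c + D (c / x ^ n) := by
      have e2 : x ^ n = c * (c / x ^ n)⁻¹ := by field_simp
      have h3 : D (c * (c / x ^ n)⁻¹) ≤ D c + D ((c / x ^ n)⁻¹) := logHeight₁_mul_le _ _
      rw [← e2, D_inv] at h3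
      exact h3
    rw [D_pow] at h1
    linarith
  · have hsub : I (c / x ^ n) ⊆ IR n c x ∪ (lows x ∪
        {p : HeightOneSpectrum (𝓞 K) | FinitePlace.mk p c ≠ 1}) := by
      intro p hp
      by_cases hpc : FinitePlace.mk p c = 1
      swap
      · exact Or.inr (Or.inr hpc)
      by_cases hpI : p ∈ IR n c x
      · exact Or.inl hpI
      right; left
      simp only [IR, Set.mem_ofPred_eq, not_or, not_lt] at hpI
      obtain ⟨h1, h2⟩ := hpI
      by_contra hcon
      have hx1 : FinitePlace.mk p x = 1 := le_antisymm h1 (not_lt.1 hcon)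
      have h3 : FinitePlace.mk p (x ^ n - c) = 1 := by
        refine le_antisymm ?_ h2
        have := fin_add_le p (x ^ n) (-c)
        rwa [← sub_eq_add_neg, map_neg_eq_map, map_pow, hx1, hpc, one_pow, max_self] at this
      rcases hp with h4 | h4
      · rw [map_div₀, map_pow, hpc, hx1] at h4
        norm_num at h4
      · rw [e1, map_div₀, map_pow, h3, hx1] at h4
        norm_num at h4
    have f1 := finite_IR hx
    have f2 := finite_lows hx0
    have h3 := W_mono hsub (f1.union (f2.union hfc))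
    have h4 := W_union f1 (f2.union hfc)
    have h5 := W_union f2 hfc
    have h6 := W_lows_le hx0
    change W (I (c / x ^ n)) ≤ _
    linarith

/-- scaling -/
theorem mp_scale {n : ℕ} (hn : 2 ≤ n) {k u : ℤ} (hu : u ≠ 0) :
    Mp 1 (PR n k) (hR n) (rR n k) (PR n (k * u ^ n)) (hR n) (rR n (k * u ^ n)) := by
  obtain ⟨a1, ha1⟩ : ∃ a, a = Real.log |(u : ℝ)| := ⟨_, rfl⟩
  have l1 : 0 ≤ a1 := by rw [ha1]; exact log_abs_nonneg hu
  have hn0 : (2 : ℝ) ≤ n := by exact_mod_cast hn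
  have hn1 : (0 : ℝ) < (n : ℝ) - 1 := by linarith
  refine ⟨((n : ℝ) - 1) * a1 + a1, by positivity, ?_⟩
  intro K _ _ x hx
  have hd := dg_pos (K := K)
  obtain ⟨hfin, hW⟩ := W_bad (K := K) hu
  have hDz := D_intCast_le (K := K) u hu
  rw [← ha1] at hW hDz
  have hl1 : 0 ≤ a1 * dg K := mul_nonneg l1 hd.le
  have hl2 : 0 ≤ ((n : ℝ) - 1) * (a1 * dg K) := mul_nonneg hn1.le hl1
  simp only [hR, rR, PR]
  change x ^ n ≠ ((k : ℤ) : K) at hx
  have ec : ((k * u ^ n : ℤ) : K) = (u : K) ^ n * (k : K) := by push_cast; ring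
  rw [ec]
  obtain ⟨c, hc⟩ : ∃ c : K, c = ((k : ℤ) : K) := ⟨_, rfl⟩
  obtain ⟨z, hz'⟩ : ∃ z : K, z = ((u : ℤ) : K) := ⟨_, rfl⟩
  have hz : z ≠ 0 := by rw [hz']; exact_mod_cast hu
  rw [← hc] at hx ⊢
  rw [← hz'] at hfin hW hDz ⊢
  right
  have h1' : (z * x) ^ n ≠ z ^ n * c := by
    intro h3
    apply hx
    rw [mul_pow] at h3
    exact mul_left_cancel₀ (pow_ne_zero n hz) h3
  refine ⟨z * x, h1', ?_, ?_⟩
  · have e1 : D x ≤ D (z⁻¹) + D (z * x) := by
      conv_lhs => rw [show x = z⁻¹ * (z * x) by field_simp]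
      exact logHeight₁_mul_le _ _
    rw [D_inv] at e1
    have h3 : ((n : ℝ) - 1) * D x ≤ ((n : ℝ) - 1) * (a1 * dg K + D (z * x)) :=
      mul_le_mul_of_nonneg_left (by linarith) hn1.le
    linarith
  · have hsub : IR n (z ^ n * c) (z * x) ⊆
        IR n c x ∪ {p : HeightOneSpectrum (𝓞 K) | FinitePlace.mk p z ≠ 1} := by
      intro p hp
      by_cases hpz : FinitePlace.mk p z = 1
      · left
        rcases hp with h3 | h3
        · left
          rwa [map_mul, hpz, one_mul] at h3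
        · right
          have e2 : (z * x) ^ n - z ^ n * c = z ^ n * (x ^ n - c) := by ring
          rwa [e2, map_mul, map_pow, hpz, one_pow, one_mul] at h3
      · exact Or.inr hpz
    have h3 := W_mono hsub ((finite_IR hx).union hfin)
    have h4 := W_union (finite_IR hx) hfin
    have e : (1 : ℝ) - 1 = 0 := by norm_num
    rw [e, zero_mul, add_zero]
    linarith

theorem hA_nonneg : ∀ (K : Type) [Field K] [NumberField K] (x : K), 0 ≤ hA K x :=
  fun _ _ _ x => D_nonneg x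

theorem rA_nonneg : ∀ (K : Type) [Field K] [NumberField K] (x : K), 0 ≤ rA K x :=
  fun _ _ _ x => R_nonneg x

theorem hR_nonneg {n : ℕ} (hn : 2 ≤ n) :
    ∀ (K : Type) [Field K] [NumberField K] (x : K), 0 ≤ hR n K x := by
  intro K _ _ x
  have hn0 : (2 : ℝ) ≤ n := by exact_mod_cast hn
  exact mul_nonneg (by linarith) (D_nonneg x)

theorem rR_nonneg {n : ℕ} {k : ℤ} :
    ∀ (K : Type) [Field K] [NumberField K] (x : K), 0 ≤ rR n k K x :=
  fun _ _ _ _ => W_nonneg _

/-- an integer `k ≠ 1`, congruent to `1` modulo `n` -/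
theorem tr_one {n : ℕ} (hn : 2 ≤ n) {k : ℤ} (hk1 : k ≠ 1) (hmod : (n : ℤ) ∣ k - 1) :
    Tr PA hA rA (PR n k) (hR n) (rR n k) := by
  have hn' : (2 : ℤ) ≤ n := by exact_mod_cast hn
  have hn0 : (2 : ℝ) ≤ n := by exact_mod_cast hn
  have hk0 : k ≠ 0 := by
    rintro rfl
    have h1 : (n : ℤ) ∣ 1 := by
      have := (dvd_neg (α := ℤ)).2 hmod
      simpa using this
    have := Int.le_of_dvd (by norm_num) h1
    omega
  have hB : Tr (PB n k) (hB n) (rB n k) (PR n k) (hR n) (rR n k) := by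
    obtain ⟨m, rfl⟩ : ∃ m, n = m + 2 := ⟨n - 2, by omega⟩
    refine (mp_newton hk0).tr ?_ ?_ ?_
    · have : (0 : ℝ) ≤ m := Nat.cast_nonneg _
      linarith
    · exact fun K _ _ x => mul_nonneg (Nat.cast_nonneg _) (D_nonneg x)
    · exact fun K _ _ x => W_nonneg _
  refine Tr.trans ?_ hB
  obtain ⟨t, ht⟩ := hmod
  rcases lt_or_gt_of_ne hk0 with hneg | hpos
  · have ht0 : t < 0 := by
      by_contra h0
      have : 0 ≤ (n : ℤ) * t := mul_nonneg (by omega) (by omega)
      omega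
    obtain ⟨s, hs⟩ : ∃ s : ℕ, t = -(s : ℤ) := ⟨t.natAbs, by omega⟩
    have hs1 : 1 ≤ s := by omega
    have hks : k = 1 - ((n * s : ℕ) : ℤ) := by
      push_cast
      rw [hs] at ht
      linarith
    rw [hks]
    refine (mp_neg hn hs1).tr ?_ hA_nonneg rA_nonneg
    have : (1 : ℝ) ≤ ((n * s : ℕ) : ℝ) := by
      have : 1 ≤ n * s := Nat.mul_pos (by omega) hs1
      exact_mod_cast this
    nlinarith
  · have ht0 : 0 < t := by
      by_contra h0
      have : (n : ℤ) * t ≤ 0 := mul_nonpos_of_nonneg_of_nonpos (by omega) (by omega)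
      have : k = 1 := by omega
      exact hk1 this
    obtain ⟨s, hs⟩ : ∃ s : ℕ, t = (s : ℤ) := ⟨t.natAbs, by omega⟩
    have hs1 : 1 ≤ s := by omega
    have hks : k = ((n * s : ℕ) : ℤ) + 1 := by
      push_cast
      rw [hs] at ht
      linarith
    rw [hks]
    refine (mp_pos hn hs1).tr ?_ hA_nonneg rA_nonneg
    have : (0 : ℝ) ≤ ((n * s : ℕ) : ℝ) := Nat.cast_nonneg _
    nlinarith

/-- **From the roots to abc.** -/
theorem tr_roots {n : ℕ} (hn : 2 ≤ n) {m : ℤ} (hc : Cong n m) :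
    Tr PA hA rA (PR n m) (hR n) (rR n m) := by
  have hn' : (2 : ℤ) ≤ n := by exact_mod_cast hn
  -- the inequality for `m` implies that for `m * u ^ n`
  have key : ∀ (u : ℤ), u ≠ 0 → (n : ℤ) ∣ m * u ^ n - 1 → m * u ^ n ≠ 1 →
      Tr PA hA rA (PR n m) (hR n) (rR n m) := by
    intro u hu h1 h2
    refine Tr.trans (tr_one hn h2 h1) ?_
    -- from `m` to `m u ^ n`
    have hm : Mp 1 (PR n (m * u ^ n)) (hR n) (rR n (m * u ^ n)) (PR n m) (hR n) (rR n m) := by
      obtain ⟨a1, ha1⟩ : ∃ a, a = Real.log |(u : ℝ)| := ⟨_, rfl⟩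
      have l1 : 0 ≤ a1 := by rw [ha1]; exact log_abs_nonneg hu
      have hn0 : (2 : ℝ) ≤ n := by exact_mod_cast hn
      have hn1 : (0 : ℝ) < (n : ℝ) - 1 := by linarith
      refine ⟨((n : ℝ) - 1) * a1 + a1, by positivity, ?_⟩
      intro K _ _ x hx
      have hd := dg_pos (K := K)
      obtain ⟨hfin, hW⟩ := W_bad (K := K) hu
      have hDz := D_intCast_le (K := K) u hu
      rw [← ha1] at hW hDz
      have hl1 : 0 ≤ a1 * dg K := mul_nonneg l1 hd.le
      have hl2 : 0 ≤ ((n : ℝ) - 1) * (a1 * dg K) := mul_nonneg hn1.le hl1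
      simp only [hR, rR, PR]
      change x ^ n ≠ ((m * u ^ n : ℤ) : K) at hx
      have ec : ((m * u ^ n : ℤ) : K) = (u : K) ^ n * (m : K) := by push_cast; ring
      rw [ec] at hx ⊢
      obtain ⟨c, hc⟩ : ∃ c : K, c = ((m : ℤ) : K) := ⟨_, rfl⟩
      obtain ⟨z, hz'⟩ : ∃ z : K, z = ((u : ℤ) : K) := ⟨_, rfl⟩
      have hz : z ≠ 0 := by rw [hz']; exact_mod_cast hu
      rw [← hc, ← hz'] at hx ⊢
      rw [← hz'] at hfin hW hDz
      right
      have hxz : x = z * (x / z) := by field_simp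
      have h1' : (x / z) ^ n ≠ c := by
        intro h3
        apply hx
        rw [hxz, mul_pow, h3]
      refine ⟨x / z, h1', ?_, ?_⟩
      · have e1 : D x ≤ D z + D (x / z) := by
          conv_lhs => rw [hxz]
          exact logHeight₁_mul_le _ _
        have h3 : ((n : ℝ) - 1) * D x ≤ ((n : ℝ) - 1) * (a1 * dg K + D (x / z)) :=
          mul_le_mul_of_nonneg_left (by linarith) hn1.le
        linarith
      · have hsub : IR n c (x / z) ⊆
            IR n (z ^ n * c) x ∪ {p : HeightOneSpectrum (𝓞 K) | FinitePlace.mk p z ≠ 1} := by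
          intro p hp
          by_cases hpz : FinitePlace.mk p z = 1
          · left
            rcases hp with h3 | h3
            · left
              rwa [map_div₀, hpz, div_one] at h3
            · right
              have e2 : x ^ n - z ^ n * c = z ^ n * ((x / z) ^ n - c) := by
                conv_lhs => rw [hxz]
                ring
              rw [e2, map_mul, map_pow, hpz, one_pow, one_mul]
              exact h3
          · exact Or.inr hpz
        have h3 := W_mono hsub ((finite_IR hx).union hfin)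
        have h4 := W_union (finite_IR hx) hfin
        have e : (1 : ℝ) - 1 = 0 := by norm_num
        rw [e, zero_mul, add_zero]
        linarith
    exact hm.tr le_rfl (hR_nonneg hn) rR_nonneg
  have key2 : ∀ (u : ℤ), u ≠ 0 → (n : ℤ) ∣ m * u ^ n - 1 →
      Tr PA hA rA (PR n m) (hR n) (rR n m) := by
    intro u hu h1
    by_cases h2 : m * u ^ n = 1
    swap
    · exact key u hu h1 h2
    refine key (u * (n + 1)) (mul_ne_zero hu (by omega)) ?_ ?_
    · have h4 := sub_dvd_pow_sub_pow ((n : ℤ) + 1) 1 n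
      rw [one_pow, add_sub_cancel_right] at h4
      have e1 : m * (u * ((n : ℤ) + 1)) ^ n - 1 = (m * u ^ n) * ((n : ℤ) + 1) ^ n - 1 := by
        rw [mul_pow]; ring
      rw [e1, h2, one_mul]
      exact h4
    · have e1 : m * (u * ((n : ℤ) + 1)) ^ n = (m * u ^ n) * ((n : ℤ) + 1) ^ n := by
        rw [mul_pow]; ring
      rw [e1, h2, one_mul]
      have : (1 : ℤ) < ((n : ℤ) + 1) ^ n := one_lt_pow₀ (by omega) (by omega)
      exact this.ne'
  rcases hc with h1 | ⟨hp, h1⟩
  · refine key2 1 one_ne_zero ?_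
    rwa [one_pow, mul_one]
  · have : Fact n.Prime := ⟨hp⟩
    have hnP : Prime (n : ℤ) := Nat.prime_iff_prime_int.1 hp
    obtain ⟨u, v, huv⟩ := (Int.isCoprime_iff_gcd_eq_one.2
      (Int.isCoprime_iff_gcd_eq_one.1 ((Prime.coprime_iff_not_dvd hnP).2 h1).symm) :
        IsCoprime m (n : ℤ))
    refine key2 u ?_ ?_
    · rintro rfl
      have : (n : ℤ) ∣ 1 := ⟨v, by linarith⟩
      exact hnP.not_isUnit (isUnit_of_dvd_one this)
    · rw [← ZMod.intCast_eq_intCast_iff_dvd_sub]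
      push_cast
      rw [ZMod.pow_card]
      have : ((u * m + v * (n : ℤ) : ℤ) : ZMod n) = ((1 : ℤ) : ZMod n) := by rw [huv]
      push_cast at this
      rw [ZMod.natCast_self, mul_zero, add_zero] at this
      rw [mul_comm, this]

/-- **From abc to the roots.** -/
theorem tr_abc {n : ℕ} (hn : 2 ≤ n) {m : ℤ} (hm : m ≠ 0) :
    Tr (PR n m) (hR n) (rR n m) PA hA rA := by
  refine (mp_abc hn hm).tr ?_ (hR_nonneg hn) rR_nonneg
  have hn0 : (2 : ℝ) ≤ n := by exact_mod_cast hn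
  rw [le_div_iff₀ (by linarith)]
  linarith

end Pool.Agent.N746.UR
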